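import Mathlib
import Pool.Agent.Helper919.Volt.Defs
import Pool.Agent.Helper919.Volt.Main
import Pool.Agent.Helper919.Volt.L8

set_option autoImplicit false

open MeasureTheory Set Filter Topology Volt919

namespace Pool.Agent.Results.MP_c24bc3_an.AllPairs

/-- Automorphism orbits in the Volterra algebra `L¹[0,1]`. -/
theorem result :
    -- all pairs `(f,g)`
    (∀ f g : V, (∃ T : V ≃ₗ[ℂ] V, IsAut T ∧ T f = g) ↔ ∃ G : ℝ → ℂ, InG G ∧ Expo G f g) ∧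
    -- every admissible `G` gives an automorphism
    (∀ G : ℝ → ℂ, InG G → ∃ T : V ≃ₗ[ℂ] V, IsAut T ∧ ∀ f : V, Expo G f (T f)) ∧
    -- if `α(f) = 0` then both `T` and `G` are uniquely determined by the pair `(f,g)`
    (∀ f g : V, Alpha0 f →
      (∀ T T' : V ≃ₗ[ℂ] V, IsAut T → IsAut T' → T f = g → T' f = g → T = T') ∧
      (∀ G G' : ℝ → ℂ, InG G → InG G' → Expo G f g → Expo G' f g → G =ᵐ[mI] G')) ∧
    -- the orbit of the constant function one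
    (∀ g : V, (∃ T : V ≃ₗ[ℂ] V, IsAut T ∧ T u = g) ↔
      ∃ G : ℝ → ℂ, InG G ∧ (g : ℝ → ℂ) =ᵐ[mI] fun t => 1 + ∫ s in (0:ℝ)..t, G s) ∧
    -- orbits of functions of power type
    (∀ (β : ℝ) (c : ℂ), 0 < β → c ≠ 0 → ∀ f : V,
      (∃ G : ℝ → ℂ, InG G ∧ (f : ℝ → ℂ) =ᵐ[mI] fun t => c * ((t ^ (β - 1) : ℝ) : ℂ) +
        ∫ s in (0:ℝ)..t, (((t - s) ^ (β - 1) : ℝ) : ℂ) * G s) →
      ∀ g : V, (∃ T : V ≃ₗ[ℂ] V, IsAut T ∧ T f = g) ↔
        ∃ G : ℝ → ℂ, InG G ∧ (g : ℝ → ℂ) =ᵐ[mI] fun t => c * ((t ^ (β - 1) : ℝ) : ℂ) +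
          ∫ s in (0:ℝ)..t, (((t - s) ^ (β - 1) : ℝ) : ℂ) * G s) ∧
    -- the orbit of `f` is `f + dG * (t f)` exactly when `t² f` is of the form `dH * (t f)`
    (∀ f : V, Alpha0 f →
      ((∃ H : ℝ → ℂ, InG H ∧ IsDConv H (fun s => (s:ℂ) * f s) (fun s => (s:ℂ) ^ 2 * f s)) ↔
      ∀ g : V, ((∃ T : V ≃ₗ[ℂ] V, IsAut T ∧ T f = g) ↔
        ∃ G : ℝ → ℂ, InG G ∧ IsDConv G (fun s => (s:ℂ) * f s) (fun s => g s - f s)))) := by
  refine ⟨?_, ?_, ?_, ?_, ?_, ?_⟩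
  · intro f g
    constructor
    · rintro ⟨T, hT, hfg⟩
      obtain ⟨G, hG, h⟩ := expo_of_aut T hT
      exact ⟨G, hG, (h f g).mpr hfg⟩
    · rintro ⟨G, hG, h⟩
      obtain ⟨T, hT, h'⟩ := aut_of_inG hG
      exact ⟨T, hT, (h' f g).mp h⟩
  · intro G hG
    obtain ⟨T, hT, h⟩ := aut_of_inG hG
    exact ⟨T, hT, fun f => (h f (T f)).mpr rfl⟩
  · intro f g hf
    refine ⟨fun T T' hT hT' h h' => aut_free ((alpha0_iff f).mp hf) hT hT' (h.trans h'.symm),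
      fun G G' hG hG' h h' => inG_unique hG hG' hf h h'⟩
  · intro g
    constructor
    · rintro ⟨T, hT, rfl⟩
      exact good_of_aut T hT
    · intro h
      obtain ⟨T, hT, hTu⟩ := aut_of_good (γ := g) h
      exact ⟨T.toLinearEquiv, hT, hTu⟩
  · intro β c hβ hc f hf g
    exact power_class hβ hc hf g
  · intro f hf
    exact regular_iff' hf

end Pool.Agent.Results.MP_c24bc3_an.AllPairs
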