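import Mathlib
import Pool.Agent.Helper919.Volt.Defs
import Pool.Agent.Helper919.Volt.Main

set_option autoImplicit false

open MeasureTheory Set Filter Topology Volt919

namespace Pool.Agent.Results.MP_c24bc3_an.OrbitOfOne

/-- Automorphism orbits in the Volterra algebra `L¹[0,1]`.
(1) The orbit of the constant function one is the set of all `t ↦ 1 + ∫₀ᵗ G`, where `G` is a
function on `[0,1)` with `|G 0| + Var(G;[0,a]) ≤ C/(1-a)` for all `a < 1`.
(2) A pair `(f,g)` satisfies `T f = g` for some automorphism `T` iff there is `γ` as in (1) such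
that `(f,g)` is a limit of pairs `(∑ cₙ u^{*(n+1)}, ∑ cₙ γ^{*(n+1)})` (here
`u^{*(n+1)} = tⁿ/n!`).
(3) Automorphisms are determined by the image of `u`. -/
theorem result :
    (∀ g : V, (∃ T : V ≃ₗ[ℂ] V, IsAut T ∧ T u = g) ↔
      ∃ G : ℝ → ℂ, InG G ∧ (g : ℝ → ℂ) =ᵐ[mI] fun t => 1 + ∫ s in (0:ℝ)..t, G s) ∧
    (∀ f g : V, (∃ T : V ≃ₗ[ℂ] V, IsAut T ∧ T f = g) ↔
      ∃ (G : ℝ → ℂ) (γ : V), InG G ∧ (γ : ℝ → ℂ) =ᵐ[mI] (fun t => 1 + ∫ s in (0:ℝ)..t, G s) ∧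
        (f, g) ∈ closure (Set.range fun c : ℕ →₀ ℂ =>
          (c.sum fun n z => z • cpow u n, c.sum fun n z => z • cpow γ n))) ∧
    (∀ T T' : V ≃ₗ[ℂ] V, IsAut T → IsAut T' → T u = T' u → T = T') := by
  refine ⟨?_, ?_, ?_⟩
  · intro g
    constructor
    · rintro ⟨T, hT, rfl⟩
      exact good_of_aut T hT
    · intro h
      obtain ⟨T, hT, hTu⟩ := aut_of_good (γ := g) h
      exact ⟨T.toLinearEquiv, hT, hTu⟩
  · intro f g
    constructor
    · rintro ⟨T, hT, hfg⟩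
      obtain ⟨G, hG, hG'⟩ := good_of_aut T hT
      exact ⟨G, T u, hG, hG', (pairs_iff T hT f g).mp hfg⟩
    · rintro ⟨G, γ, hG, hγ, h⟩
      obtain ⟨T, hT, hTu⟩ := aut_of_good (γ := γ) ⟨G, hG, hγ⟩
      refine ⟨T.toLinearEquiv, hT, (pairs_iff T.toLinearEquiv hT f g).mpr ?_⟩
      have hTu' : T.toLinearEquiv u = γ := hTu
      rw [hTu']
      exact h
  · intro T T' hT hT' h
    exact aut_unique hT hT' h

end Pool.Agent.Results.MP_c24bc3_an.OrbitOfOne
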