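import Mathlib
import Pool.Agent.Helper919.Volt.Defs
import Pool.Agent.Helper919.Volt.Main
import Pool.Agent.Helper919.Volt.L8

set_option autoImplicit false

open MeasureTheory Set Filter Topology Volt919

namespace Pool.Agent.Results.MP_c24bc3_an.RegularOrbits

/-- Automorphism orbits in the Volterra algebra `L¹[0,1]`: the orbit of `u`, the orbits of elements
of power type, of regular elements, and the general form of the pairs. -/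
theorem result :
    (∀ g : V, (∃ T : V ≃ₗ[ℂ] V, IsAut T ∧ T u = g) ↔
      ∃ G : ℝ → ℂ, InG G ∧ (g : ℝ → ℂ) =ᵐ[mI] fun t => 1 + ∫ s in (0:ℝ)..t, G s) ∧
    (∀ (β : ℝ) (c : ℂ), 0 < β → c ≠ 0 → ∀ f : V,
      (∃ G : ℝ → ℂ, InG G ∧ (f : ℝ → ℂ) =ᵐ[mI] fun t => c * ((t ^ (β - 1) : ℝ) : ℂ) +
        ∫ s in (0:ℝ)..t, (((t - s) ^ (β - 1) : ℝ) : ℂ) * G s) →
      ∀ g : V, (∃ T : V ≃ₗ[ℂ] V, IsAut T ∧ T f = g) ↔
        ∃ G : ℝ → ℂ, InG G ∧ (g : ℝ → ℂ) =ᵐ[mI] fun t => c * ((t ^ (β - 1) : ℝ) : ℂ) +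
          ∫ s in (0:ℝ)..t, (((t - s) ^ (β - 1) : ℝ) : ℂ) * G s) ∧
    (∀ f : V, Alpha0 f →
      ((∃ H : ℝ → ℂ, InG H ∧ IsDConv H (fun s => (s:ℂ) * f s) (fun s => (s:ℂ) ^ 2 * f s)) ↔
      ∀ g : V, ((∃ T : V ≃ₗ[ℂ] V, IsAut T ∧ T f = g) ↔
        ∃ G : ℝ → ℂ, InG G ∧ IsDConv G (fun s => (s:ℂ) * f s) (fun s => g s - f s)))) ∧
    (∀ f g : V, (∃ T : V ≃ₗ[ℂ] V, IsAut T ∧ T f = g) ↔ ∃ G : ℝ → ℂ, InG G ∧ Expo G f g) := by
  refine ⟨?_, ?_, ?_, ?_⟩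
  · intro g
    constructor
    · rintro ⟨T, hT, rfl⟩
      exact good_of_aut T hT
    · intro h
      obtain ⟨T, hT, hTu⟩ := aut_of_good (γ := g) h
      exact ⟨T.toLinearEquiv, hT, hTu⟩
  · intro β c hβ hc f hf g
    exact power_class hβ hc hf g
  · intro f hf
    exact regular_iff' hf
  · intro f g
    constructor
    · rintro ⟨T, hT, hfg⟩
      obtain ⟨G, hG, h⟩ := expo_of_aut T hT
      exact ⟨G, hG, (h f g).mpr hfg⟩
    · rintro ⟨G, hG, h⟩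
      obtain ⟨T, hT, h'⟩ := aut_of_inG hG
      exact ⟨T, hT, (h' f g).mp h⟩

end Pool.Agent.Results.MP_c24bc3_an.RegularOrbits
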